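import Pool.Agent.Helper85.LN2.Goals

/-!
# Goal STAT of project LN2: positive stationary weights
-/

namespace Pool.Agent.Helper58.LN2

open Pool.Agent.Helper85.LN Pool.Agent.Helper85.LN2

/-- A nonnegative nonzero stationary vector. -/
theorem exists_stat (m d : ℕ) (hm : 0 < m) (tr : Fin m → Fin d → Fin m) :
    ∃ ω : Fin m → ℝ, (∀ q, 0 ≤ ω q) ∧ (∃ q, 0 < ω q) ∧
      ∀ q', (∑ q, ∑ a, if tr q a = q' then ω q else 0) = d * ω q' := by
  classical
  let M : Matrix (Fin m) (Fin m) ℝ := fun i j =>
    (∑ a : Fin d, if tr i a = j then (1 : ℝ) else 0) - if i = j then (d : ℝ) else 0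
  have h1 : M.mulVec (fun _ => 1) = 0 := by
    funext i
    simp only [Matrix.mulVec, dotProduct, mul_one, M, Finset.sum_sub_distrib, Pi.zero_apply]
    rw [Finset.sum_comm]
    simp
  have h2 : M.det = 0 := by
    rw [← Matrix.exists_mulVec_eq_zero_iff]
    refine ⟨fun _ => 1, ?_, h1⟩
    intro h
    have := congrFun h ⟨0, hm⟩
    simp at this
  rw [← Matrix.exists_vecMul_eq_zero_iff] at h2
  obtain ⟨v, hv0, hv⟩ := h2
  have h3 : ∀ j, (∑ i, ∑ a, if tr i a = j then v i else 0) = d * v j := by
    intro j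
    have h := congrFun hv j
    simp only [Matrix.vecMul, dotProduct, M, Pi.zero_apply, mul_sub, Finset.sum_sub_distrib,
      Finset.mul_sum, mul_ite, mul_one, mul_zero, Finset.sum_ite_eq', Finset.mem_univ, if_true] at h
    linarith
  have h4 : ∀ j, (d : ℝ) * |v j| ≤ ∑ i, ∑ a, if tr i a = j then |v i| else 0 := by
    intro j
    have h5 : (d : ℝ) * |v j| = |(d : ℝ) * v j| := by
      rw [abs_mul, abs_of_nonneg (Nat.cast_nonneg d : (0 : ℝ) ≤ d)]
    rw [h5, ← h3 j]
    refine (Finset.abs_sum_le_sum_abs _ _).trans (Finset.sum_le_sum fun i _ => ?_)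
    refine (Finset.abs_sum_le_sum_abs _ _).trans (Finset.sum_le_sum fun a _ => ?_)
    split_ifs <;> simp
  have h6 : (∑ j, (d : ℝ) * |v j|) = ∑ j, ∑ i, ∑ a, if tr i a = j then |v i| else 0 := by
    rw [Finset.sum_comm, ← Finset.mul_sum]
    have : ∀ i, (∑ j, ∑ a, if tr i a = j then |v i| else 0) = d * |v i| := by
      intro i
      rw [Finset.sum_comm]
      simp
    simp only [this, Finset.mul_sum]
  have h7 := (Finset.sum_eq_sum_iff_of_le (fun j _ => h4 j)).1 h6
  refine ⟨fun q => |v q|, fun q => abs_nonneg _, ?_, fun q' => (h7 q' (Finset.mem_univ _)).symm⟩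
  by_contra hc
  push Not at hc
  apply hv0
  funext q
  have := hc q
  simpa using this

theorem stat_one (m d : ℕ) (hd : 0 < d) (tr : Fin m → Fin d → Fin m)
    (h : ∀ (q : Fin m) (u : List (Fin d)), ∃ v : List (Fin d), (u ++ v).foldl tr q = q) (q0 : Fin m) :
    ∃ ω : Fin m → ℝ, (∀ q, 0 ≤ ω q) ∧ 0 < ω q0 ∧
      ∀ q', (∑ q, ∑ a, if tr q a = q' then ω q else 0) = d * ω q' := by
  classical
  have hm : 0 < m := lt_of_le_of_lt (Nat.zero_le _) q0.2
  let C : Fin m → Prop := fun q => ∃ u : List (Fin d), u.foldl tr q0 = q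
  have hC0 : C q0 := ⟨[], rfl⟩
  have hC1 : ∀ q a, C q → C (tr q a) := by
    rintro q a ⟨u, rfl⟩
    exact ⟨u ++ [a], by simp⟩
  obtain ⟨ω, h0, ⟨q1, h1⟩, h2⟩ := exists_stat m d hm (fun q a => if C q then tr q a else q0)
  have hd' : (0 : ℝ) < d := by exact_mod_cast hd
  have h3 : ∀ j, ¬ C j → ω j = 0 := by
    intro j hj
    have h4 := h2 j
    have h5 : (∑ q, ∑ a : Fin d, if (if C q then tr q a else q0) = j then ω q else 0) = 0 := by
      refine Finset.sum_eq_zero fun q _ => Finset.sum_eq_zero fun a _ => ?_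
      rw [if_neg]
      intro h6
      apply hj
      rw [← h6]
      split_ifs with h7
      · exact hC1 q a h7
      · exact hC0
    rw [h5] at h4
    rcases mul_eq_zero.1 h4.symm with h8 | h8
    · exact absurd h8 hd'.ne'
    · exact h8
  have h4 : ∀ q', (∑ q, ∑ a, if tr q a = q' then ω q else 0) = d * ω q' := by
    intro q'
    rw [← h2 q']
    refine Finset.sum_congr rfl fun q _ => Finset.sum_congr rfl fun a _ => ?_
    by_cases hq : C q
    · rw [if_pos hq]
    · simp [h3 q hq]
  have hpos : ∀ q a, 0 < ω q → 0 < ω (tr q a) := by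
    intro q a hq
    have h5 : ω q ≤ d * ω (tr q a) := by
      rw [← h4 (tr q a)]
      have h6 : ω q ≤ ∑ a', if tr q a' = tr q a then ω q else 0 := by
        have := Finset.single_le_sum (f := fun a' => if tr q a' = tr q a then ω q else 0)
          (fun a' _ => by split_ifs <;> simp [hq.le]) (Finset.mem_univ a)
        simpa using this
      refine h6.trans ?_
      refine Finset.single_le_sum (f := fun i => ∑ a', if tr i a' = tr q a then ω i else 0)
        (fun i _ => Finset.sum_nonneg fun a' _ => ?_) (Finset.mem_univ q)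
      split_ifs
      · exact h0 i
      · exact le_rfl
    have h7 : 0 < d * ω (tr q a) := lt_of_lt_of_le hq h5
    exact (mul_pos_iff_of_pos_left hd').1 h7
  have hq1 : C q1 := by
    by_contra hc
    rw [h3 q1 hc] at h1
    exact lt_irrefl _ h1
  refine ⟨ω, h0, ?_, h4⟩
  obtain ⟨u, hu⟩ := hq1
  obtain ⟨v, hv⟩ := h q0 u
  rw [List.foldl_append, hu] at hv
  have key : ∀ (v : List (Fin d)) (q : Fin m), 0 < ω q → 0 < ω (v.foldl tr q) := by
    intro v
    induction v with
    | nil => intro q hq; simpa using hq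
    | cons a v ih => intro q hq; rw [List.foldl_cons]; exact ih _ (hpos q a hq)
  have := key v q1 h1
  rwa [hv] at this

theorem stat : S_STAT := by
  classical
  intro m d tr h
  rcases Nat.eq_zero_or_pos d with hd | hd
  · subst hd
    exact ⟨fun _ => 1, fun _ => one_pos, fun q' => by simp⟩
  · choose ω h0 h1 h2 using stat_one m d hd tr h
    refine ⟨fun q => ∑ q0, ω q0 q, fun q => ?_, fun q' => ?_⟩
    · exact Finset.sum_pos' (fun q0 _ => h0 q0 q) ⟨q, Finset.mem_univ _, h1 q⟩
    · have : ∀ q, (∑ a, if tr q a = q' then ∑ q0, ω q0 q else 0)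
          = ∑ q0, ∑ a, if tr q a = q' then ω q0 q else 0 := by
        intro q
        rw [Finset.sum_comm]
        refine Finset.sum_congr rfl fun a _ => ?_
        split_ifs <;> simp
      simp only [this]
      rw [Finset.sum_comm]
      simp only [h2, Finset.mul_sum]

end Pool.Agent.Helper58.LN2
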